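import Pool.Agent.H67.Hall.Mordell

/-!
# The explicit inequality for reducible fibres of the `j`-map of `X_0(5)`
-/

namespace Pool.Agent.H67.Hall

open Polynomial

/-- The numerator of the `j`-map of `X_0(5)`. -/
noncomputable def P5 : ℤ[X] :=
  X ^ 6 + C 30 * X ^ 5 + C 315 * X ^ 4 + C 1300 * X ^ 3 + C 1575 * X ^ 2 + C 750 * X + C 125

lemma P5_eq : P5 = (X ^ 2 + C 10 * X + C 5) ^ 3 := by
  rw [P5]
  have : (C 30 : ℤ[X]) = 30 ∧ (C 315 : ℤ[X]) = 315 ∧ (C 1300 : ℤ[X]) = 1300 ∧ (C 1575 : ℤ[X]) = 1575 ∧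
    (C 750 : ℤ[X]) = 750 ∧ (C 125 : ℤ[X]) = 125 ∧ (C 10 : ℤ[X]) = 10 ∧ (C 5 : ℤ[X]) = 5 :=
    ⟨rfl, rfl, rfl, rfl, rfl, rfl, rfl, rfl⟩
  obtain ⟨h1, h2, h3, h4, h5, h6, h7, h8⟩ := this
  rw [h1, h2, h3, h4, h5, h6, h7, h8]
  ring

lemma P5_natDegree : P5.natDegree = 6 := by
  rw [P5]; compute_degree!

lemma P5_zero : P5.eval 0 = 125 := by simp [P5]

lemma P5_len : len P5 = 4096 := by
  rw [len, P5_natDegree]
  simp only [Finset.sum_range_succ, Finset.sum_range_zero]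
  simp [P5, coeff_X]
  norm_num

lemma P5_map {R : Type*} [CommRing R] (f : ℤ →+* R) : P5.map f =
    X ^ 6 + 30 * X ^ 5 + 315 * X ^ 4 + 1300 * X ^ 3 + 1575 * X ^ 2 + 750 * X + 125 := by
  simp [P5]

lemma P5_cop : IsCoprime (P5.map (Int.castRingHom ℚ)) ((X : ℤ[X]).map (Int.castRingHom ℚ)) := by
  refine ⟨C (1 / 125), -C (1 / 125) * (X ^ 5 + 30 * X ^ 4 + 315 * X ^ 3 + 1300 * X ^ 2 +
    1575 * X + 750), ?_⟩
  rw [P5_map, Polynomial.map_X]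
  have h : (C (1 / 125 : ℚ)) * 125 = 1 := by
    rw [show (125 : ℚ[X]) = C 125 from rfl, ← C_mul]; norm_num
  linear_combination h

/-- The cofactor in `z P (w) - w P (z) = (z - w) T (z, w)`. -/
noncomputable def S5 (z w : ℂ) : ℂ :=
  1575 + 1300 * (z ^ 1 * w ^ 0) + 1300 * (z ^ 0 * w ^ 1) + 315 * (z ^ 2 * w ^ 0) +
        315 * (z ^ 1 * w ^ 1) + 315 * (z ^ 0 * w ^ 2) + 30 * (z ^ 3 * w ^ 0) + 30 * (z ^ 2 * w ^ 1) +
        30 * (z ^ 1 * w ^ 2) + 30 * (z ^ 0 * w ^ 3) + 1 * (z ^ 4 * w ^ 0) + 1 * (z ^ 3 * w ^ 1) +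
        1 * (z ^ 2 * w ^ 2) + 1 * (z ^ 1 * w ^ 3) + 1 * (z ^ 0 * w ^ 4)

lemma S5_bound {z w : ℂ} (hz : 17 / 4 * ‖z‖ < 1) (hw : 17 / 4 * ‖w‖ < 1) : ‖z * w * S5 z w‖ < 125 := by
  have hz' : ‖z‖ ≤ 4 / 17 := by linarith
  have hw' : ‖w‖ ≤ 4 / 17 := by linarith
  have hz0 := norm_nonneg z
  have hw0 := norm_nonneg w
  have m1 : ∀ (i j : ℕ), ‖z ^ i * w ^ j‖ ≤ (4 / 17) ^ (i + j) := by
    intro i j
    rw [norm_mul, norm_pow, norm_pow, pow_add]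
    gcongr
  have m2 : ∀ (c : ℕ) (i j : ℕ), ‖(c : ℂ) * (z ^ i * w ^ j)‖ ≤ (c : ℝ) * (4 / 17) ^ (i + j) := by
    intro c i j
    rw [norm_mul, Complex.norm_natCast]
    exact mul_le_mul_of_nonneg_left (m1 i j) (Nat.cast_nonneg _)
  have hS : ‖S5 z w‖ ≤ 1575 + 1300 * (4 / 17) ^ (1 + 0) + 1300 * (4 / 17) ^ (0 + 1) +
      315 * (4 / 17) ^ (2 + 0) + 315 * (4 / 17) ^ (1 + 1) + 315 * (4 / 17) ^ (0 + 2) +
      30 * (4 / 17) ^ (3 + 0) + 30 * (4 / 17) ^ (2 + 1) + 30 * (4 / 17) ^ (1 + 2) +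
      30 * (4 / 17) ^ (0 + 3) + 1 * (4 / 17) ^ (4 + 0) + 1 * (4 / 17) ^ (3 + 1) +
      1 * (4 / 17) ^ (2 + 2) + 1 * (4 / 17) ^ (1 + 3) + 1 * (4 / 17) ^ (0 + 4) := by
    rw [S5]
    repeat' (refine (norm_add_le _ _).trans (add_le_add ?_ ?_))
    · simp
    · exact_mod_cast m2 1300 1 0
    · exact_mod_cast m2 1300 0 1
    · exact_mod_cast m2 315 2 0
    · exact_mod_cast m2 315 1 1
    · exact_mod_cast m2 315 0 2
    · exact_mod_cast m2 30 3 0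
    · exact_mod_cast m2 30 2 1
    · exact_mod_cast m2 30 1 2
    · exact_mod_cast m2 30 0 3
    · exact_mod_cast m2 1 4 0
    · exact_mod_cast m2 1 3 1
    · exact_mod_cast m2 1 2 2
    · exact_mod_cast m2 1 1 3
    · exact_mod_cast m2 1 0 4
  rw [norm_mul, norm_mul]
  have h1 : ‖z‖ * ‖w‖ ≤ (4 / 17) * (4 / 17) := by gcongr
  calc ‖z‖ * ‖w‖ * ‖S5 z w‖ ≤ ((4 / 17) * (4 / 17)) * 2241 := by
        gcongr
        exact hS.trans (by norm_num)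
    _ < 125 := by norm_num

lemma S5_ne {z w : ℂ} (hz : 17 / 4 * ‖z‖ < 1) (hw : 17 / 4 * ‖w‖ < 1) : 125 - z * w * S5 z w ≠ 0 := by
  intro h
  have h1 := S5_bound hz hw
  rw [← sub_eq_zero.mp h] at h1
  simp at h1

/-- The bound for a reducible fibre. -/
theorem five_bound {x y k : ℤ} (hk : k ≠ 0) (hxy : y ^ 2 = x ^ 3 + k) (hx : x ≠ 0)
    (hirr : ∀ G : ℚ[X], Irreducible G → G ∣ (C k * P5 + C (1728 * x ^ 3) * X).map (Int.castRingHom ℚ) →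
      G.natDegree ≤ 5) :
    |x| ≤ 400000 * k ^ 2 ∧ max |x| |y| ≤ 240000000 * |k| ^ 3 := by
  have h1 := of_radius (P := P5) (Q := X) (D := 17 / 4) (by norm_num) P5_cop (by simp) (by
    intro z w hz hw h
    rw [P5_map, Polynomial.map_X] at h
    simp only [eval_X, eval_add, eval_mul, eval_pow, eval_ofNat] at h
    have h2 : (z - w) * (125 - z * w * S5 z w) = 0 := by
      rw [S5]; linear_combination h
    exact sub_eq_zero.mp ((mul_eq_zero.mp h2).resolve_right (S5_ne hz hw))) (by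
    intro z hz h
    apply S5_ne hz hz
    rw [P5_map, Polynomial.map_X] at h
    simp only [derivative_X, eval_one, eval_X, eval_add, eval_mul, eval_pow, eval_ofNat,
      derivative_add, derivative_mul, derivative_X_pow, derivative_ofNat, eval_zero] at h
    simp only [map_ofNat, Nat.cast_ofNat, eval_ofNat] at h
    rw [S5]
    linear_combination h)
    (v := 1728 * x ^ 3) (k := k) (n := 1) (d := 6)
    (mul_ne_zero (by norm_num) (pow_ne_zero 3 hx)) hk (by rw [P5_natDegree, natDegree_X]; rfl)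
    (by norm_num) (fun G hG hdvd => by have := hirr G hG hdvd; omega)
  rw [P5_len, P5_zero, pow_one, pow_one] at h1
  have hk1 : (1 : ℝ) ≤ |(k : ℝ)| := by exact_mod_cast Int.one_le_abs hk
  have h2 : |((1728 * x ^ 3 : ℤ) : ℝ)| = 1728 * |(x : ℝ)| ^ 3 := by
    push_cast; rw [abs_mul, abs_pow]; norm_num
  rw [h2, mul_pow] at h1
  have h3 : |(x : ℝ)| ^ 3 ≤ 53300000000000000 * |(k : ℝ)| ^ 6 := by
    have h0 : (0 : ℝ) ≤ |(k : ℝ)| ^ 6 := by positivity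
    norm_num at h1
    linarith
  have h4 : |(x : ℝ)| ≤ 400000 * |(k : ℝ)| ^ 2 := by
    have h5 : |(x : ℝ)| ^ 3 ≤ (400000 * |(k : ℝ)| ^ 2) ^ 3 := by
      refine h3.trans ?_
      rw [mul_pow, ← pow_mul]
      gcongr
      norm_num
    exact (pow_le_pow_iff_left₀ (abs_nonneg _) (by positivity) (by norm_num)).mp h5
  have h6 : |(y : ℝ)| ≤ 240000000 * |(k : ℝ)| ^ 3 := by
    have h7 : |(y : ℝ)| ^ 2 ≤ (240000000 * |(k : ℝ)| ^ 3) ^ 2 := by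
      have h8 : |(y : ℝ)| ^ 2 = (x : ℝ) ^ 3 + k := by rw [sq_abs]; exact_mod_cast hxy
      have h9 : (x : ℝ) ^ 3 ≤ |(x : ℝ)| ^ 3 := by rw [← abs_pow]; exact le_abs_self _
      have h10 : (k : ℝ) ≤ |(k : ℝ)| := le_abs_self _
      have h11 : |(k : ℝ)| ≤ |(k : ℝ)| ^ 6 := le_self_pow₀ hk1 (by norm_num)
      have h0 : (0 : ℝ) ≤ |(k : ℝ)| ^ 6 := by positivity
      rw [h8, mul_pow, ← pow_mul]
      norm_num
      linarith
    exact (pow_le_pow_iff_left₀ (abs_nonneg _) (by positivity) (by norm_num)).mp h7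
  have h12 : |(x : ℝ)| ≤ 240000000 * |(k : ℝ)| ^ 3 := by
    refine h4.trans ?_
    gcongr
    · norm_num
    · norm_num
  constructor
  · have : ((|x| : ℤ) : ℝ) ≤ ((400000 * k ^ 2 : ℤ) : ℝ) := by
      push_cast; rw [← sq_abs (k : ℝ)]; exact h4
    exact_mod_cast this
  · have : ((max |x| |y| : ℤ) : ℝ) ≤ ((240000000 * |k| ^ 3 : ℤ) : ℝ) := by
      push_cast; exact max_le h12 h6
    exact_mod_cast this

end Pool.Agent.H67.Hall
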