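import Pool.Agent.H67.Hall.Five

/-!
# The Galois action on the subgroups of order five

The lemmas on the coordinates of a point of order five and its double follow `Pool.Agent.H19.FI.Group`
(helper19), where they are used for a subgroup stable under the Galois group.
-/

namespace Pool.Agent.H67.Hall

open WeierstrassCurve WeierstrassCurve.Affine

open scoped Classical

/-- The curve `Y² = X³ - 3 x X + 2 y` over `ℚ`. -/
def curve (x y : ℤ) : WeierstrassCurve ℚ := ⟨0, 0, 0, -3 * x, 2 * y⟩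

/-- The algebraic closure of `ℚ`. -/
abbrev QQ : Type := AlgebraicClosure ℚ

/-- The absolute Galois group acts transitively on the subgroups of order `n` of the group of points of `W`
over the algebraic closure of `ℚ`. -/
def GaloisTransitive (W : WeierstrassCurve ℚ) (n : ℕ) : Prop :=
  ∀ H H' : AddSubgroup (W⁄QQ).Point, Nat.card H = n → Nat.card H' = n →
    ∃ σ : QQ ≃ₐ[ℚ] QQ, H.map (Affine.Point.map (W' := W) (σ : QQ →ₐ[ℚ] QQ)) = H'

lemma isAlgebraic_QQ : Algebra.IsAlgebraic ℚ QQ := by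
  refine ⟨fun x => ?_⟩
  obtain ⟨p, hp, hx⟩ := (AlgebraicClosure.isAlgebraic ℚ).isAlgebraic x
  refine ⟨p, hp, ?_⟩
  rw [Polynomial.aeval_def] at hx ⊢
  rw [← hx]
  congr 1

lemma isGalois_QQ : IsGalois ℚ QQ := by
  have := isAlgebraic_QQ
  have : IsAlgClosure ℚ QQ := ⟨inferInstance, isAlgebraic_QQ⟩
  exact IsAlgClosure.isGalois ℚ QQ

section
variable {x y : ℤ}

lemma equation_iff' {α γ : QQ} : ((curve x y)⁄QQ).Equation α γ ↔ γ ^ 2 = α ^ 3 - 3 * x * α + 2 * y := by
  rw [WeierstrassCurve.Affine.equation_iff]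
  simp [curve]
  constructor <;> intro h <;> linear_combination h

lemma double_x {α γ β δ : QQ} (hP : ((curve x y)⁄QQ).Nonsingular α γ)
    (hQ : ((curve x y)⁄QQ).Nonsingular β δ)
    (h2 : (Affine.Point.some α γ hP) + Affine.Point.some α γ hP = Affine.Point.some β δ hQ) :
    4 * β * (α ^ 3 - 3 * x * α + 2 * y) = α ^ 4 + 6 * x * α ^ 2 - 16 * y * α + 9 * x ^ 2 := by
  have hγ : γ ≠ ((curve x y)⁄QQ).negY α γ := by
    intro h
    rw [Affine.Point.add_self_of_Y_eq h] at h2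
    exact Affine.Point.some_ne_zero hQ h2.symm
  have hγ0 : γ ≠ 0 := by
    intro h0
    apply hγ
    simp [WeierstrassCurve.Affine.negY, curve, h0]
  rw [Affine.Point.add_self_of_Y_ne hγ] at h2
  rw [Affine.Point.some.injEq] at h2
  have h3 := h2.1
  rw [WeierstrassCurve.Affine.slope_of_Y_ne rfl hγ] at h3
  simp [WeierstrassCurve.Affine.addX, WeierstrassCurve.Affine.negY, curve] at h3
  have hE := equation_iff'.mp hP.1
  rw [← hE, ← h3]
  have h4 : γ + γ ≠ 0 := by rw [← two_mul]; exact mul_ne_zero two_ne_zero hγ0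
  set m : QQ := (3 * α ^ 2 + -(3 * x)) / (γ + γ) with hm
  have hm' : m * (2 * γ) = 3 * α ^ 2 - 3 * x := by
    rw [hm, ← two_mul]
    rw [← two_mul] at h4
    field_simp
    ring
  have h5 : (m * (2 * γ)) ^ 2 = (3 * α ^ 2 - 3 * x) ^ 2 := by rw [hm']
  linear_combination h5 - 8 * α * hE

/-- `α` and `β` are the `X`-coordinates of a point of order five in `H` and of its double. -/
def Coord (x y : ℤ) (H : AddSubgroup ((curve x y)⁄QQ).Point) (α β : QQ) : Prop :=
  α ≠ β ∧ (∃ γ, ∃ h, Affine.Point.some α γ h ∈ H) ∧ (∃ γ, ∃ h, Affine.Point.some β γ h ∈ H) ∧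
    4 * β * (α ^ 3 - 3 * x * α + 2 * y) = α ^ 4 + 6 * x * α ^ 2 - 16 * y * α + 9 * x ^ 2 ∧
      4 * α * (β ^ 3 - 3 * x * β + 2 * y) = β ^ 4 + 6 * x * β ^ 2 - 16 * y * β + 9 * x ^ 2

lemma exists_coord {H : AddSubgroup ((curve x y)⁄QQ).Point} (hH : Nat.card H = 5) :
    ∃ α β : QQ, Coord x y H α β := by
  have hfin : Finite H := Nat.finite_of_card_ne_zero (by rw [hH]; norm_num)
  have h5 : ∀ P ∈ H, (5 : ℕ) • P = 0 := by
    intro P hP
    have h := card_nsmul_eq_zero' (x := (⟨P, hP⟩ : H))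
    rw [hH] at h
    have := congrArg (Subtype.val) h
    simpa using this
  have hnt : ∃ P ∈ H, P ≠ 0 := by
    by_contra hcon
    push Not at hcon
    have : Subsingleton H := ⟨fun a b => Subtype.ext (by rw [hcon a a.2, hcon b b.2])⟩
    have h1 := Nat.card_of_subsingleton (0 : H)
    omega
  obtain ⟨P, hPH, hP0⟩ := hnt
  have hP5 : (5 : ℕ) • P = 0 := h5 P hPH
  have h2P : P + P ≠ 0 := by
    intro h
    apply hP0
    have : (5 : ℕ) • P = (P + P) + (P + P) + P := by module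
    rw [this, h] at hP5
    simpa using hP5
  rcases hPc : P with _ | ⟨α, γ, hα⟩
  · exact absurd hPc hP0
  rcases hQc : P + P with _ | ⟨β, δ, hβ⟩
  · exact absurd hQc h2P
  have h44 : (P + P) + (P + P) = -P := by
    rw [eq_neg_iff_add_eq_zero, ← hP5]; module
  have hd1 := double_x (x := x) (y := y) hα hβ (by rw [← hPc, ← hQc])
  have hd2 : 4 * α * (β ^ 3 - 3 * x * β + 2 * y) = β ^ 4 + 6 * x * β ^ 2 - 16 * y * β + 9 * x ^ 2 := by
    rw [hQc, hPc, Affine.Point.neg_some] at h44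
    exact double_x hβ _ h44
  have hne : α ≠ β := by
    intro h
    have h1 := Affine.Point.X_eq_iff (h₁ := hα) (h₂ := hβ) |>.mp h
    rw [← hPc, ← hQc] at h1
    rcases h1 with h1 | h1
    · apply hP0
      have h2 : P + 0 = P + P := by rw [add_zero]; exact h1
      exact (add_left_cancel h2).symm
    · have h3 : P + (P + P) = 0 := by
        nth_rewrite 1 [h1]; simp
      have h4 : (5 : ℕ) • P = (P + (P + P)) + (P + P) := by module
      rw [h4, h3, zero_add] at hP5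
      exact h2P hP5
  refine ⟨α, β, hne, ⟨γ, hα, by rw [← hPc]; exact hPH⟩, ⟨δ, hβ, by rw [← hQc]; exact H.add_mem hPH hPH⟩,
    hd1, hd2⟩

/-- The action of the Galois group. -/
lemma Coord.map {H : AddSubgroup ((curve x y)⁄QQ).Point} {α β : QQ} (h : Coord x y H α β)
    (σ : QQ ≃ₐ[ℚ] QQ) :
    Coord x y (H.map (Affine.Point.map (W' := curve x y) (σ : QQ →ₐ[ℚ] QQ))) (σ α) (σ β) := by
  obtain ⟨h1, ⟨γ, hγ, h2⟩, ⟨δ, hδ, h3⟩, h4, h5⟩ := h
  refine ⟨fun h => h1 (σ.injective h), ?_, ?_, ?_, ?_⟩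
  · have h6 := AddSubgroup.mem_map_of_mem (Affine.Point.map (W' := curve x y) (σ : QQ →ₐ[ℚ] QQ)) h2
    rw [Affine.Point.map_some] at h6
    exact ⟨_, _, h6⟩
  · have h6 := AddSubgroup.mem_map_of_mem (Affine.Point.map (W' := curve x y) (σ : QQ →ₐ[ℚ] QQ)) h3
    rw [Affine.Point.map_some] at h6
    exact ⟨_, _, h6⟩
  · have h6 := congrArg σ h4
    simp only [map_add, map_sub, map_mul, map_pow, map_intCast, map_ofNat] at h6
    exact h6
  · have h6 := congrArg σ h5
    simp only [map_add, map_sub, map_mul, map_pow, map_intCast, map_ofNat] at h6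
    exact h6

/-- The value of the Hauptmodul of `X_0(5)`. -/
noncomputable def haupt (x : ℤ) (α β : QQ) : QQ :=
  4 * ((-3 * (x : QQ) + (α + β) ^ 2 - α * β) / (α - β) ^ 2) - 11

lemma haupt_map (σ : QQ ≃ₐ[ℚ] QQ) (α β : QQ) : haupt x (σ α) (σ β) = σ (haupt x α β) := by
  simp only [haupt, map_add, map_sub, map_mul, map_pow, map_intCast, map_ofNat, map_div₀, map_neg]

/-- The relations between the coordinates. -/
lemma Coord.relations {H : AddSubgroup ((curve x y)⁄QQ).Point} {α β : QQ} (h : Coord x y H α β) :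
    9 * (x : QQ) * 16 = (α - β) ^ 2 * (haupt x α β ^ 2 + 10 * haupt x α β + 5) ∧
    9 * (α + β) ^ 2 * 4 = (α - β) ^ 2 * (haupt x α β ^ 2 + 22 * haupt x α β + 125) ∧
    72 * (y : QQ) * 4 = (α + β) * (α - β) ^ 2 * (haupt x α β ^ 2 + 4 * haupt x α β - 1) ∧
    9 * (α * β) * 16 = (α - β) ^ 2 * (haupt x α β ^ 2 + 22 * haupt x α β + 89) := by
  obtain ⟨hne, -, -, h1, h2⟩ := h
  have hsub : α - β ≠ 0 := sub_ne_zero.mpr hne
  have hA : (8 * (y : QQ)) = (α + β) * ((α + β) ^ 2 - 6 * (α * β) + 6 * x) := by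
    have h3 : (α - β) * (8 * (y : QQ)) = (α - β) * ((α + β) * ((α + β) ^ 2 - 6 * (α * β) + 6 * x)) := by
      linear_combination h1 - h2
    exact mul_left_cancel₀ hsub h3
  have hB : (-3 * (x : QQ) + (α + β) ^ 2 - α * β) ^ 2 =
      ((α + β) ^ 2 - 4 * (α * β)) * (2 * ((α + β) ^ 2 - 4 * (α * β)) + 9 * (α * β)) := by
    linear_combination (-1 / 2 : QQ) * (h1 + h2) + (3 / 2 : QQ) * (α + β) * hA
  set w : QQ := (-3 * (x : QQ) + (α + β) ^ 2 - α * β) / (α - β) ^ 2 with hw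
  have hh : haupt x α β = 4 * w - 11 := rfl
  have hδ : (α - β) ^ 2 ≠ 0 := pow_ne_zero 2 hsub
  have hwδ : w * (α - β) ^ 2 = -3 * (x : QQ) + (α + β) ^ 2 - α * β := by rw [hw]; field_simp
  have hδd : (α - β) ^ 2 = (α + β) ^ 2 - 4 * (α * β) := by ring
  set δ : QQ := (α - β) ^ 2 with hδ'
  have h9p : 9 * (α * β) = (w ^ 2 - 2) * δ := by
    have h3 : δ * (9 * (α * β)) = δ * ((w ^ 2 - 2) * δ) := by
      have : (w * δ) ^ 2 = δ * (2 * δ + 9 * (α * β)) := by rw [hwδ, hδd]; exact hB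
      linear_combination -this
    exact mul_left_cancel₀ hδ h3
  have h9s : 9 * (α + β) ^ 2 = δ * (4 * w ^ 2 + 1) := by
    linear_combination (-9 : QQ) * hδd + 4 * h9p
  have hx9 : 9 * (x : QQ) = δ * (w ^ 2 - 3 * w + 1) := by
    linear_combination 3 * hwδ + (1 / 3 : QQ) * h9p * (-1) + (1/3 : QQ) * h9s
  have h72 : 72 * (y : QQ) = (α + β) * δ * (4 * w ^ 2 - 18 * w + 19) := by
    linear_combination 9 * hA + (α + β) * h9s - 6 * (α + β) * h9p + 6 * (α + β) * hx9
  rw [hh]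
  refine ⟨?_, ?_, ?_, ?_⟩
  · linear_combination 16 * hx9
  · linear_combination 4 * h9s
  · linear_combination 4 * h72
  · linear_combination 16 * h9p

end

end Pool.Agent.H67.Hall
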