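import Pool.Agent.H67.Hall.Runge

/-!
# The inequality for reducible fibres
-/

namespace Pool.Agent.H67.Hall

open Polynomial

lemma pow_down {a K B : ℝ} (ha : 0 ≤ a) (hK : 0 < K) (hB : 1 ≤ B) {n m : ℕ} (hnm : n ≤ m)
    (h : a ^ m ≤ K ^ m * B) : a ^ n ≤ K ^ n * B := by
  rcases le_or_gt a K with h1 | h1
  · calc a ^ n ≤ K ^ n := pow_le_pow_left₀ ha h1 n
      _ ≤ K ^ n * B := le_mul_of_one_le_right (by positivity) hB
  · obtain ⟨r, rfl⟩ := Nat.exists_eq_add_of_le hnm
    have h2 : a ^ n * K ^ r ≤ (K ^ n * B) * K ^ r := by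
      calc a ^ n * K ^ r ≤ a ^ n * a ^ r := by gcongr
        _ = a ^ (n + r) := (pow_add _ _ _).symm
        _ ≤ K ^ (n + r) * B := h
        _ = (K ^ n * B) * K ^ r := by rw [pow_add]; ring
    exact le_of_mul_le_mul_right h2 (by positivity)

lemma exists_irreducible_factor {F : ℤ[X]} (hF : F ≠ 0) {z : ℂ}
    (hz : (F.map (Int.castRingHom ℂ)).eval z = 0) :
    ∃ G H : ℤ[X], F = G * H ∧ Irreducible G ∧ (G.map (Int.castRingHom ℂ)).eval z = 0 := by
  have h1 := UniqueFactorizationMonoid.factors_prod hF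
  have h2 : ((UniqueFactorizationMonoid.factors F).prod.map (Int.castRingHom ℂ)).eval z = 0 := by
    obtain ⟨H, hH⟩ := h1.symm.dvd
    rw [hH, Polynomial.map_mul, eval_mul, hz, zero_mul]
  rw [Polynomial.map_multiset_prod, eval_multiset_prod, Multiset.prod_eq_zero_iff, Multiset.map_map,
    Multiset.mem_map] at h2
  obtain ⟨G, hG, hG0⟩ := h2
  obtain ⟨H, hH⟩ := UniqueFactorizationMonoid.dvd_of_mem_factors hG
  exact ⟨G, H, hH, UniqueFactorizationMonoid.irreducible_of_factor G hG, hG0⟩

theorem runge {P Q : ℤ[X]} {D : ℝ} (hD : 1 ≤ D)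
    (hcop : IsCoprime (P.map (Int.castRingHom ℚ)) (Q.map (Int.castRingHom ℚ)))
    (hQ0 : Q.eval 0 = 0)
    (hinj : ∀ z w : ℂ, D * ‖z‖ < 1 → D * ‖w‖ < 1 →
      (Q.map (Int.castRingHom ℂ)).eval z * (P.map (Int.castRingHom ℂ)).eval w =
        (Q.map (Int.castRingHom ℂ)).eval w * (P.map (Int.castRingHom ℂ)).eval z → z = w)
    (hder : ∀ z : ℂ, D * ‖z‖ < 1 →
      (derivative (Q.map (Int.castRingHom ℂ))).eval z * (P.map (Int.castRingHom ℂ)).eval z ≠
        (Q.map (Int.castRingHom ℂ)).eval z * (derivative (P.map (Int.castRingHom ℂ))).eval z)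
    {a b : ℤ} (ha : a ≠ 0) (hb : b ≠ 0) (hab : IsCoprime a b) {n d : ℕ}
    (hd : d = max P.natDegree Q.natDegree) (hn : n ≤ d)
    (hirr : ∀ G : ℚ[X], Irreducible G → G ∣ (C b * P + C a * Q).map (Int.castRingHom ℚ) →
      G.natDegree + n ≤ d) :
    |(a : ℝ)| ^ n ≤ (len P * D ^ d) ^ n * (|((P.eval 0 : ℤ) : ℝ)| * |(b : ℝ)|) ^ d := by
  have hP0 := eval_zero_ne hcop hQ0
  have hlen : 1 ≤ len P := by
    have h1 : (1 : ℝ) ≤ |(P.coeff 0 : ℝ)| := by
      rw [coeff_zero_eq_eval_zero]
      exact_mod_cast Int.one_le_abs hP0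
    exact h1.trans (coeff_le_len P 0)
  have hDd : 1 ≤ D ^ d := one_le_pow₀ hD
  have hK : len P ≤ len P * D ^ d := le_mul_of_one_le_right (by linarith) hDd
  have hB1 : (1 : ℝ) ≤ |((P.eval 0 : ℤ) : ℝ)| * |(b : ℝ)| := by
    have h1 : 1 ≤ |P.eval 0| * |b| := by
      have := Int.one_le_abs hP0
      have := Int.one_le_abs hb
      nlinarith
    exact_mod_cast h1
  have hB : 1 ≤ (|((P.eval 0 : ℤ) : ℝ)| * |(b : ℝ)|) ^ d := one_le_pow₀ hB1
  have hP : P.natDegree ≤ d := by rw [hd]; exact le_max_left _ _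
  have hQ : Q.natDegree ≤ d := by rw [hd]; exact le_max_right _ _
  set F : ℤ[X] := C b * P + C a * Q with hF
  have hFd : F.natDegree ≤ d := by
    refine (natDegree_add_le _ _).trans (max_le ?_ ?_)
    · exact (natDegree_C_mul_le _ _).trans hP
    · exact (natDegree_C_mul_le _ _).trans hQ
  have hF0 : F ≠ 0 := by
    intro h
    have h1 : F.eval 0 = b * P.eval 0 := by simp [hF, hQ0]
    rw [h, eval_zero] at h1
    exact mul_ne_zero hb hP0 h1.symm
  rcases hFd.lt_or_eq with hlt | heq
  · -- the degree drops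
    have h1 : b * P.coeff d + a * Q.coeff d = 0 := by
      have h2 : F.coeff d = 0 := coeff_eq_zero_of_natDegree_lt hlt
      rw [hF, coeff_add, coeff_C_mul, coeff_C_mul] at h2
      exact h2
    have h2 : a ∣ P.coeff d := by
      have h3 : a ∣ b * P.coeff d := ⟨-Q.coeff d, by linear_combination h1⟩
      exact hab.dvd_of_dvd_mul_left h3
    have h3 : P.coeff d ≠ 0 := by
      intro h4
      have h5 : Q.coeff d = 0 := by
        rw [h4, mul_zero, zero_add] at h1
        exact (mul_eq_zero.mp h1).resolve_left ha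
      have h6 : d ≠ 0 := by omega
      rcases le_total P.natDegree Q.natDegree with h7 | h7
      · rw [max_eq_right h7] at hd
        rw [hd] at h5
        have h8 : Q = 0 := leadingCoeff_eq_zero.mp h5
        rw [h8] at hd
        simp at hd
        exact h6 hd
      · rw [max_eq_left h7] at hd
        rw [hd] at h4
        have h8 : P = 0 := leadingCoeff_eq_zero.mp h4
        rw [h8] at hP0
        simp at hP0
    have h4 : |(a : ℝ)| ≤ len P := by
      have h5 : |a| ≤ |P.coeff d| := Int.le_of_dvd (abs_pos.mpr h3) (by rw [abs_dvd_abs]; exact h2)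
      have h6 : |(a : ℝ)| ≤ |(P.coeff d : ℝ)| := by exact_mod_cast h5
      exact h6.trans (coeff_le_len P d)
    calc |(a : ℝ)| ^ n ≤ (len P * D ^ d) ^ n := pow_le_pow_left₀ (abs_nonneg _) (h4.trans hK) n
      _ ≤ _ := le_mul_of_one_le_right (by positivity) hB
  · -- the factor without zeros near the origin
    have hmax : ∀ z : ℂ, ¬ D * ‖z‖ < 1 → max 1 ‖z‖ ≤ D * ‖z‖ := by
      intro z hz
      refine max_le (not_lt.mp hz) ?_
      exact le_mul_of_one_le_left (norm_nonneg _) hD
    suffices h : ∃ G H : ℤ[X], F = G * H ∧ n ≤ H.natDegree ∧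
        ∀ z ∈ (H.map (Int.castRingHom ℂ)).roots, ¬ D * ‖z‖ < 1 by
      obtain ⟨G, H, h1, h2, h3⟩ := h
      have h4 := key hD hP hcop hQ0 ha hb hab (by rw [← hF]; exact hFd) (by rw [← hF]; exact h1)
        (fun z hz => hmax z (h3 z hz))
      exact pow_down (abs_nonneg _) (by linarith) hB h2 h4
    have hinjc : Function.Injective (Int.castRingHom ℂ) := RingHom.injective_int _
    have hFc : F.map (Int.castRingHom ℂ) ≠ 0 := (Polynomial.map_ne_zero_iff hinjc).mpr hF0
    have hev : ∀ z : ℂ, (F.map (Int.castRingHom ℂ)).eval z =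
        b * (P.map (Int.castRingHom ℂ)).eval z + a * (Q.map (Int.castRingHom ℂ)).eval z := by
      intro z
      simp [hF]
    by_cases hroot : ∃ z : ℂ, D * ‖z‖ < 1 ∧ (F.map (Int.castRingHom ℂ)).eval z = 0
    · obtain ⟨z, hz, hz0⟩ := hroot
      obtain ⟨G, H, hGH, hG, hGz⟩ := exists_irreducible_factor hF0 hz0
      have hG0 : G ≠ 0 := hG.ne_zero
      have hH0 : H ≠ 0 := by rintro rfl; rw [mul_zero] at hGH; exact hF0 hGH
      have hGd : G.natDegree ≠ 0 := by
        intro h
        rw [eq_C_of_natDegree_eq_zero h, Polynomial.map_C, eval_C, eq_intCast, Int.cast_eq_zero] at hGz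
        apply hG0
        rw [eq_C_of_natDegree_eq_zero h, hGz, C_0]
      have hprim : G.IsPrimitive := hG.isPrimitive hGd
      have hirrG : Irreducible (G.map (Int.castRingHom ℚ)) :=
        (IsPrimitive.Int.irreducible_iff_irreducible_map_cast hprim).mp hG
      have h1 := hirr _ hirrG ⟨H.map (Int.castRingHom ℚ), by rw [hGH, Polynomial.map_mul]⟩
      rw [natDegree_map_eq_of_injective (RingHom.injective_int _)] at h1
      have h2 : G.natDegree + H.natDegree = d := by
        rw [← natDegree_mul hG0 hH0, ← hGH, heq]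
      refine ⟨G, H, hGH, by omega, ?_⟩
      intro w hw hwD
      have hHc : H.map (Int.castRingHom ℂ) ≠ 0 := (Polynomial.map_ne_zero_iff hinjc).mpr hH0
      have hw0 : (H.map (Int.castRingHom ℂ)).eval w = 0 := (mem_roots hHc).mp hw
      have hFw : (F.map (Int.castRingHom ℂ)).eval w = 0 := by
        rw [hGH, Polynomial.map_mul, eval_mul, hw0, mul_zero]
      have hbc : (b : ℂ) ≠ 0 := by exact_mod_cast hb
      have e1 := hev z
      have e2 := hev w
      rw [hz0] at e1
      rw [hFw] at e2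
      have hzw : z = w := by
        apply hinj z w hz hwD
        apply mul_left_cancel₀ hbc
        linear_combination (Q.map (Int.castRingHom ℂ)).eval w * e1 -
          (Q.map (Int.castRingHom ℂ)).eval z * e2
      subst hzw
      apply hder z hz
      have h3 : (derivative (F.map (Int.castRingHom ℂ))).eval z = 0 := by
        rw [hGH, Polynomial.map_mul, derivative_mul, eval_add, eval_mul, eval_mul, hGz, hw0]
        ring
      have h4 : (derivative (F.map (Int.castRingHom ℂ))).eval z =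
          b * (derivative (P.map (Int.castRingHom ℂ))).eval z +
            a * (derivative (Q.map (Int.castRingHom ℂ))).eval z := by
        simp [hF]
      rw [h3] at h4
      apply mul_left_cancel₀ hbc
      linear_combination (-(derivative (Q.map (Int.castRingHom ℂ))).eval z) * e1 +
          (Q.map (Int.castRingHom ℂ)).eval z * h4
    · push Not at hroot
      refine ⟨1, F, (one_mul F).symm, by omega, ?_⟩
      intro z hz hzD
      exact hroot z hzD ((mem_roots hFc).mp hz)

end Pool.Agent.H67.Hall
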