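import Pool.Agent.H67.Hall.Main

/-!
# Application to Mordell's equation
-/

namespace Pool.Agent.H67.Hall

open Polynomial Filter Topology

lemma exists_radius {P Q : ℤ[X]} (hP0 : P.eval 0 ≠ 0) (hQ0 : Q.eval 0 = 0)
    (hQ1 : (derivative Q).eval 0 ≠ 0) :
    ∃ D : ℝ, 1 ≤ D ∧ (∀ z w : ℂ, D * ‖z‖ < 1 → D * ‖w‖ < 1 →
      (Q.map (Int.castRingHom ℂ)).eval z * (P.map (Int.castRingHom ℂ)).eval w =
        (Q.map (Int.castRingHom ℂ)).eval w * (P.map (Int.castRingHom ℂ)).eval z → z = w) ∧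
    (∀ z : ℂ, D * ‖z‖ < 1 →
      (derivative (Q.map (Int.castRingHom ℂ))).eval z * (P.map (Int.castRingHom ℂ)).eval z ≠
        (Q.map (Int.castRingHom ℂ)).eval z * (derivative (P.map (Int.castRingHom ℂ))).eval z) := by
  set Pc := P.map (Int.castRingHom ℂ) with hPc
  set Qc := Q.map (Int.castRingHom ℂ) with hQc
  have e1 : Pc.eval 0 ≠ 0 := by
    have : Pc.eval 0 = ((P.eval 0 : ℤ) : ℂ) := by
      rw [hPc, ← coeff_zero_eq_eval_zero, coeff_map, coeff_zero_eq_eval_zero]; simp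
    rw [this]; exact_mod_cast hP0
  have e2 : Qc.eval 0 = 0 := by
    have : Qc.eval 0 = ((Q.eval 0 : ℤ) : ℂ) := by
      rw [hQc, ← coeff_zero_eq_eval_zero, coeff_map, coeff_zero_eq_eval_zero]; simp
    rw [this]; exact_mod_cast hQ0
  have e3 : (derivative Qc).eval 0 ≠ 0 := by
    have : (derivative Qc).eval 0 = (((derivative Q).eval 0 : ℤ) : ℂ) := by
      rw [hQc, derivative_map, ← coeff_zero_eq_eval_zero, coeff_map, coeff_zero_eq_eval_zero]; simp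
    rw [this]; exact_mod_cast hQ1
  -- the quotient is injective near the origin
  have h1 : HasStrictDerivAt (fun z => Qc.eval z / Pc.eval z) ((derivative Qc).eval 0 / Pc.eval 0) 0 := by
    have h := (Qc.hasStrictDerivAt 0).div (Pc.hasStrictDerivAt 0) e1
    have h5 : ((derivative Qc).eval 0 * Pc.eval 0 - Qc.eval 0 * (derivative Pc).eval 0) /
        Pc.eval 0 ^ 2 = (derivative Qc).eval 0 / Pc.eval 0 := by
      rw [e2, zero_mul, sub_zero, sq, mul_div_mul_right _ _ e1]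
    rw [h5] at h
    exact h
  set c := (derivative Qc).eval 0 / Pc.eval 0 with hc
  have hc0 : c ≠ 0 := div_ne_zero e3 e1
  have h2 : ∀ᶠ p : ℂ × ℂ in 𝓝 (0, 0), Qc.eval p.1 / Pc.eval p.1 = Qc.eval p.2 / Pc.eval p.2 →
      p.1 = p.2 := by
    have h3 := h1.hasStrictFDerivAt.isLittleO.def (c := ‖c‖ / 2) (by positivity)
    filter_upwards [h3] with p hp heq
    rw [heq, sub_self, zero_sub, norm_neg] at hp
    simp only [ContinuousLinearMap.toSpanSingleton_apply, smul_eq_mul, norm_mul] at hp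
    by_contra hne
    have h4 : 0 < ‖p.1 - p.2‖ := norm_pos_iff.mpr (sub_ne_zero.mpr hne)
    have h5 : 0 < ‖c‖ := norm_pos_iff.mpr hc0
    nlinarith [mul_pos h4 h5]
  have h3 : ∀ᶠ z : ℂ in 𝓝 0, Pc.eval z ≠ 0 := by
    have : ContinuousAt (fun z => Pc.eval z) 0 := Pc.continuous.continuousAt
    exact this.eventually_ne e1
  have h4 : ∀ᶠ z : ℂ in 𝓝 0,
      (derivative Qc).eval z * Pc.eval z - Qc.eval z * (derivative Pc).eval z ≠ 0 := by
    have : ContinuousAt (fun z =>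
        (derivative Qc).eval z * Pc.eval z - Qc.eval z * (derivative Pc).eval z) 0 := by
      fun_prop
    refine this.eventually_ne ?_
    simp only [e2, zero_mul, sub_zero]
    exact mul_ne_zero e3 e1
  rw [Metric.eventually_nhds_iff] at h2 h3 h4
  obtain ⟨r2, hr2, h2⟩ := h2
  obtain ⟨r3, hr3, h3⟩ := h3
  obtain ⟨r4, hr4, h4⟩ := h4
  refine ⟨1 + 1 / r2 + 1 / r3 + 1 / r4, ?_, ?_, ?_⟩
  · have := one_div_pos.mpr hr2
    have := one_div_pos.mpr hr3
    have := one_div_pos.mpr hr4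
    linarith
  · have i2 := one_div_pos.mpr hr2
    have i3 := one_div_pos.mpr hr3
    have i4 := one_div_pos.mpr hr4
    have hlt : ∀ r : ℝ, 0 < r → ∀ D : ℝ, 1 / r ≤ D → ∀ z : ℂ, D * ‖z‖ < 1 → ‖z‖ < r := by
      intro r hr D hD z hz
      have h5 : 1 / r * ‖z‖ < 1 := lt_of_le_of_lt (by gcongr) hz
      rw [div_mul_eq_mul_div, one_mul, div_lt_one hr] at h5
      exact h5
    intro z w hz hw heq
    have hz2 := hlt r2 hr2 _ (by linarith) z hz
    have hw2 := hlt r2 hr2 _ (by linarith) w hw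
    have hz3 := hlt r3 hr3 _ (by linarith) z hz
    have hw3 := hlt r3 hr3 _ (by linarith) w hw
    have hPz : Pc.eval z ≠ 0 := h3 (by simpa using hz3)
    have hPw : Pc.eval w ≠ 0 := h3 (by simpa using hw3)
    have := @h2 (z, w) (by
      rw [dist_eq_norm, Prod.norm_def]
      simpa using ⟨hz2, hw2⟩) (by
      simp only
      rw [div_eq_div_iff hPz hPw]
      exact heq)
    exact this
  · have i2 := one_div_pos.mpr hr2
    have i3 := one_div_pos.mpr hr3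
    have i4 := one_div_pos.mpr hr4
    have hlt : ∀ r : ℝ, 0 < r → ∀ D : ℝ, 1 / r ≤ D → ∀ z : ℂ, D * ‖z‖ < 1 → ‖z‖ < r := by
      intro r hr D hD z hz
      have h5 : 1 / r * ‖z‖ < 1 := lt_of_le_of_lt (by gcongr) hz
      rw [div_mul_eq_mul_div, one_mul, div_lt_one hr] at h5
      exact h5
    intro z hz
    have hz4 := hlt r4 hr4 _ (by linarith) z hz
    have := h4 (show dist z 0 < r4 by simpa using hz4)
    exact sub_ne_zero.mp this

/-- The inequality without the assumption that `v` and `k` are coprime. -/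
theorem of_radius {P Q : ℤ[X]} {D : ℝ} (hD : 1 ≤ D)
    (hcop : IsCoprime (P.map (Int.castRingHom ℚ)) (Q.map (Int.castRingHom ℚ)))
    (hQ0 : Q.eval 0 = 0)
    (hinj : ∀ z w : ℂ, D * ‖z‖ < 1 → D * ‖w‖ < 1 →
      (Q.map (Int.castRingHom ℂ)).eval z * (P.map (Int.castRingHom ℂ)).eval w =
        (Q.map (Int.castRingHom ℂ)).eval w * (P.map (Int.castRingHom ℂ)).eval z → z = w)
    (hder : ∀ z : ℂ, D * ‖z‖ < 1 →
      (derivative (Q.map (Int.castRingHom ℂ))).eval z * (P.map (Int.castRingHom ℂ)).eval z ≠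
        (Q.map (Int.castRingHom ℂ)).eval z * (derivative (P.map (Int.castRingHom ℂ))).eval z)
    {v k : ℤ} (hv : v ≠ 0) (hk : k ≠ 0) {n d : ℕ}
    (hd : d = max P.natDegree Q.natDegree) (hn : n ≤ d)
    (hirr : ∀ G : ℚ[X], Irreducible G → G ∣ (C k * P + C v * Q).map (Int.castRingHom ℚ) →
      G.natDegree + n ≤ d) :
    |(v : ℝ)| ^ n ≤ (len P * D ^ d) ^ n * (|((P.eval 0 : ℤ) : ℝ)| * |(k : ℝ)|) ^ d := by
  obtain ⟨g, b, a, hg, hb, ha, hab⟩ : ∃ g b a : ℤ, g ≠ 0 ∧ k = g * b ∧ v = g * a ∧ IsCoprime a b := by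
    have h0 : (Int.gcd k v) ≠ 0 := by
      rw [Ne, Int.gcd_eq_zero_iff]; tauto
    refine ⟨Int.gcd k v, k / Int.gcd k v, v / Int.gcd k v, by exact_mod_cast h0,
      (Int.mul_ediv_cancel' (Int.gcd_dvd_left _ _)).symm, (Int.mul_ediv_cancel' (Int.gcd_dvd_right _ _)).symm,
      ?_⟩
    rw [isCoprime_comm, Int.isCoprime_iff_gcd_eq_one]
    exact Int.gcd_div_gcd_div_gcd (Nat.pos_of_ne_zero h0)
  have hb0 : b ≠ 0 := by rintro rfl; rw [mul_zero] at hb; exact hk hb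
  have ha0 : a ≠ 0 := by rintro rfl; rw [mul_zero] at ha; exact hv ha
  have hF : C k * P + C v * Q = C g * (C b * P + C a * Q) := by
    rw [hb, ha, C_mul, C_mul]; ring
  have h1 := runge hD hcop hQ0 hinj hder ha0 hb0 hab hd hn (by
    intro G hG hdvd
    apply hirr G hG
    rw [hF, Polynomial.map_mul]
    exact hdvd.mul_left _)
  have hg1 : (1 : ℝ) ≤ |(g : ℝ)| := by exact_mod_cast Int.one_le_abs hg
  have hlen := len_nonneg P
  have h2 : |(v : ℝ)| = |(g : ℝ)| * |(a : ℝ)| := by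
    rw [← abs_mul, ha]; push_cast; rfl
  have h3 : |(k : ℝ)| = |(g : ℝ)| * |(b : ℝ)| := by
    rw [← abs_mul, hb]; push_cast; rfl
  calc |(v : ℝ)| ^ n = |(g : ℝ)| ^ n * |(a : ℝ)| ^ n := by rw [h2, mul_pow]
    _ ≤ |(g : ℝ)| ^ d * ((len P * D ^ d) ^ n * (|((P.eval 0 : ℤ) : ℝ)| * |(b : ℝ)|) ^ d) := by
        gcongr
    _ = (len P * D ^ d) ^ n * (|((P.eval 0 : ℤ) : ℝ)| * |(k : ℝ)|) ^ d := by
        rw [h3, mul_pow, mul_pow, mul_pow]; ring

lemma bound_three {v : ℤ} {K B : ℝ} {n d : ℕ} (hK : 0 ≤ K) (hB : 1 ≤ B) (hn : n ≠ 0)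
    (hdn : d ≤ 6 * n) (h : |(v : ℝ)| ^ n ≤ K ^ n * B ^ d) : |(v : ℝ)| ≤ K * B ^ 6 := by
  have h1 : |(v : ℝ)| ^ n ≤ (K * B ^ 6) ^ n := by
    calc |(v : ℝ)| ^ n ≤ K ^ n * B ^ d := h
      _ ≤ K ^ n * B ^ (6 * n) := by gcongr
      _ = (K * B ^ 6) ^ n := by rw [mul_pow, pow_mul]
  exact (pow_le_pow_iff_left₀ (by positivity) (by positivity) hn).mp h1

/-- From a bound for `x` to Hall's inequality. -/
lemma hall_of_bound {x y k : ℤ} (hxy : y ^ 2 = x ^ 3 + k) (hk : k ≠ 0) {c : ℝ} (hc : 1 ≤ c)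
    (h : |(x : ℝ)| ^ 3 ≤ c * |(k : ℝ)| ^ 6) :
    |(x : ℝ)| ≤ c * |(k : ℝ)| ^ 2 ∧ max |(x : ℝ)| |(y : ℝ)| ≤ (c + 1) * |(k : ℝ)| ^ 3 := by
  have hk1 : (1 : ℝ) ≤ |(k : ℝ)| := by exact_mod_cast Int.one_le_abs hk
  have hx : |(x : ℝ)| ≤ c * |(k : ℝ)| ^ 2 := by
    have h1 : |(x : ℝ)| ^ 3 ≤ (c * |(k : ℝ)| ^ 2) ^ 3 := by
      refine h.trans ?_
      rw [mul_pow, ← pow_mul]
      gcongr
      nlinarith [mul_nonneg (by linarith : 0 ≤ c) (by linarith : 0 ≤ c), sq_nonneg (c - 1),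
        mul_nonneg (mul_nonneg (by linarith : 0 ≤ c) (by linarith : 0 ≤ c)) (by linarith : 0 ≤ c - 1)]
    exact (pow_le_pow_iff_left₀ (abs_nonneg _) (by positivity) (by norm_num)).mp h1
  refine ⟨hx, max_le ?_ ?_⟩
  · calc |(x : ℝ)| ≤ c * |(k : ℝ)| ^ 2 := hx
      _ ≤ (c + 1) * |(k : ℝ)| ^ 3 := by
        gcongr
        · linarith
        · norm_num
  · have h2 : |(y : ℝ)| ^ 2 ≤ ((c + 1) * |(k : ℝ)| ^ 3) ^ 2 := by
      have h3 : |(y : ℝ)| ^ 2 = (x : ℝ) ^ 3 + k := by rw [sq_abs]; exact_mod_cast hxy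
      have h4 : (x : ℝ) ^ 3 ≤ |(x : ℝ)| ^ 3 := by rw [← abs_pow]; exact le_abs_self _
      have h5 : (k : ℝ) ≤ |(k : ℝ)| := le_abs_self _
      have h6 : |(k : ℝ)| ≤ |(k : ℝ)| ^ 6 := le_self_pow₀ hk1 (by norm_num)
      rw [h3, mul_pow, ← pow_mul]
      have h7 : (0 : ℝ) ≤ |(k : ℝ)| ^ 6 := by positivity
      norm_num
      nlinarith [mul_nonneg (mul_nonneg (by linarith : 0 ≤ c) (by linarith : 0 ≤ c)) h7,
        mul_nonneg (by linarith : 0 ≤ c) h7]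
    exact (pow_le_pow_iff_left₀ (abs_nonneg _) (by positivity) (by norm_num)).mp h2

/-- Hall's inequality for reducible fibres of a rational function with a simple rational pole. -/
theorem general (P Q : ℤ[X])
    (hcop : IsCoprime (P.map (Int.castRingHom ℚ)) (Q.map (Int.castRingHom ℚ)))
    (hQ0 : Q.eval 0 = 0) (hQ1 : (derivative Q).eval 0 ≠ 0) {d : ℕ}
    (hd : d = max P.natDegree Q.natDegree) :
    ∃ c : ℝ, ∀ x y k : ℤ, k ≠ 0 → y ^ 2 = x ^ 3 + k → ∀ n ≤ d,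
      (∀ G : ℚ[X], Irreducible G → G ∣ (C k * P + C (x ^ 3) * Q).map (Int.castRingHom ℚ) →
        G.natDegree + n ≤ d) →
      |(x : ℝ)| ^ (3 * n) ≤ c * |(k : ℝ)| ^ d ∧
        (d ≤ 6 * n → max |(x : ℝ)| |(y : ℝ)| ≤ c * |(k : ℝ)| ^ 3) := by
  have hP0 := eval_zero_ne hcop hQ0
  obtain ⟨D, hD, hinj, hder⟩ := exists_radius hP0 hQ0 hQ1
  have hp1 : (1 : ℝ) ≤ |((P.eval 0 : ℤ) : ℝ)| := by exact_mod_cast Int.one_le_abs hP0
  have hlen : 1 ≤ len P := by
    refine hp1.trans ?_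
    rw [← coeff_zero_eq_eval_zero]; exact coeff_le_len P 0
  have hd1 : d ≠ 0 := by
    intro h0
    have h1 : Q.natDegree = 0 := by omega
    rw [eq_C_of_natDegree_eq_zero h1] at hQ1
    simp at hQ1
  set K : ℝ := len P * D ^ d with hK
  have hK1 : 1 ≤ K := by
    have : 1 ≤ D ^ d := one_le_pow₀ hD
    nlinarith
  set p : ℝ := |((P.eval 0 : ℤ) : ℝ)| with hp
  have hKd : 1 ≤ K ^ d * p ^ d := by
    have h1 : 1 ≤ K ^ d := one_le_pow₀ hK1
    have h2 : 1 ≤ p ^ d := one_le_pow₀ hp1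
    nlinarith
  have hK6 : 1 ≤ K * p ^ 6 := by
    have h2 : 1 ≤ p ^ 6 := one_le_pow₀ hp1
    nlinarith
  refine ⟨K ^ d * p ^ d + (K * p ^ 6 + 1), ?_⟩
  intro x y k hk hxy n hn hirr
  have hk1 : (1 : ℝ) ≤ |(k : ℝ)| := by exact_mod_cast Int.one_le_abs hk
  have hkd : 1 ≤ |(k : ℝ)| ^ d := one_le_pow₀ hk1
  have hk3 : 1 ≤ |(k : ℝ)| ^ 3 := one_le_pow₀ hk1
  have hmain : ∀ hx : x ≠ 0, |((x ^ 3 : ℤ) : ℝ)| ^ n ≤ K ^ n * (p * |(k : ℝ)|) ^ d := fun hx =>
    of_radius hD hcop hQ0 hinj hder (pow_ne_zero 3 hx) hk hd hn hirr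
  have hcast : |((x ^ 3 : ℤ) : ℝ)| = |(x : ℝ)| ^ 3 := by push_cast; exact abs_pow _ _
  constructor
  · rcases eq_or_ne x 0 with rfl | hx
    · rcases Nat.eq_zero_or_pos n with rfl | hn0
      · simp only [mul_zero, pow_zero]
        nlinarith
      · have : |((0 : ℤ) : ℝ)| ^ (3 * n) = 0 := by
          simp only [Int.cast_zero, abs_zero]
          exact zero_pow (by omega)
        rw [this]
        nlinarith
    · have h1 := hmain hx
      rw [hcast, ← pow_mul, mul_pow p] at h1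
      calc |(x : ℝ)| ^ (3 * n) ≤ K ^ n * (p ^ d * |(k : ℝ)| ^ d) := h1
        _ ≤ K ^ d * (p ^ d * |(k : ℝ)| ^ d) := by
            gcongr
        _ = K ^ d * p ^ d * |(k : ℝ)| ^ d := by ring
        _ ≤ _ := by
            apply mul_le_mul_of_nonneg_right _ (by positivity)
            linarith
  · intro hdn
    have h3 : |(x : ℝ)| ^ 3 ≤ (K * p ^ 6) * |(k : ℝ)| ^ 6 := by
      rcases eq_or_ne x 0 with rfl | hx
      · simp only [Int.cast_zero, abs_zero]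
        have : 0 ≤ (K * p ^ 6) * |(k : ℝ)| ^ 6 := mul_nonneg (by linarith) (by positivity)
        norm_num
        linarith
      · have h1 := bound_three (by linarith) (by nlinarith) (by omega) hdn (hmain hx)
        rw [hcast, mul_pow] at h1
        linarith
    have h4 := (hall_of_bound hxy hk hK6 h3).2
    refine h4.trans (mul_le_mul_of_nonneg_right ?_ (by positivity))
    linarith

/-- The degrees of the irreducible factors, if one root is known. -/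
lemma natDegree_irreducible_le {F : ℚ[X]} (hF : F ≠ 0) {d : ℕ} (hd : F.natDegree ≤ d) {z : ℂ}
    (hz : aeval z F = 0) {G : ℚ[X]} (hG : Irreducible G) (hdvd : G ∣ F) :
    G.natDegree + min (minpoly ℚ z).natDegree (d - (minpoly ℚ z).natDegree) ≤ d := by
  have hint : IsIntegral ℚ z := (isAlgebraic_iff_isIntegral).mp ⟨F, hF, hz⟩
  obtain ⟨H, hH⟩ := minpoly.dvd ℚ z hz
  have hm0 : minpoly ℚ z ≠ 0 := minpoly.ne_zero hint
  have hH0 : H ≠ 0 := by rintro rfl; rw [mul_zero] at hH; exact hF hH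
  have h1 : F.natDegree = (minpoly ℚ z).natDegree + H.natDegree := by
    conv_lhs => rw [hH]
    exact natDegree_mul hm0 hH0
  rw [hH] at hdvd
  rcases hG.prime.dvd_or_dvd hdvd with h | h
  · have := natDegree_le_of_dvd h hm0
    omega
  · have := natDegree_le_of_dvd h hH0
    omega

/-- The same with an algebraic number of given degree. -/
theorem general' (P Q : ℤ[X])
    (hcop : IsCoprime (P.map (Int.castRingHom ℚ)) (Q.map (Int.castRingHom ℚ)))
    (hQ0 : Q.eval 0 = 0) (hQ1 : (derivative Q).eval 0 ≠ 0) {d : ℕ}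
    (hd : d = max P.natDegree Q.natDegree) :
    ∃ c : ℝ, ∀ x y k : ℤ, k ≠ 0 → y ^ 2 = x ^ 3 + k → ∀ z : ℂ,
      (x : ℂ) ^ 3 * aeval z Q = (x ^ 3 - y ^ 2) * aeval z P → ∀ m, m = (minpoly ℚ z).natDegree →
      |(x : ℝ)| ^ (3 * min m (d - m)) ≤ c * |(k : ℝ)| ^ d ∧
        (d ≤ 6 * m → 6 * m ≤ 5 * d → max |(x : ℝ)| |(y : ℝ)| ≤ c * |(k : ℝ)| ^ 3) := by
  obtain ⟨c, hc⟩ := general P Q hcop hQ0 hQ1 hd
  refine ⟨c, ?_⟩
  intro x y k hk hxy z hz m hm
  have hP0 := eval_zero_ne hcop hQ0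
  set F : ℤ[X] := C k * P + C (x ^ 3) * Q with hF
  have hF0 : F ≠ 0 := by
    intro h
    have h1 : F.eval 0 = k * P.eval 0 := by simp [hF, hQ0]
    rw [h, eval_zero] at h1
    exact mul_ne_zero hk hP0 h1.symm
  have hFq : F.map (Int.castRingHom ℚ) ≠ 0 :=
    (Polynomial.map_ne_zero_iff (RingHom.injective_int _)).mpr hF0
  have hFd : (F.map (Int.castRingHom ℚ)).natDegree ≤ d := by
    refine natDegree_map_le.trans ((natDegree_add_le _ _).trans (max_le ?_ ?_))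
    · exact (natDegree_C_mul_le _ _).trans (by rw [hd]; exact le_max_left _ _)
    · exact (natDegree_C_mul_le _ _).trans (by rw [hd]; exact le_max_right _ _)
  have hroot : aeval z (F.map (Int.castRingHom ℚ)) = 0 := by
    have h1 : aeval z (F.map (Int.castRingHom ℚ)) = aeval z F := by
      rw [show (Int.castRingHom ℚ) = algebraMap ℤ ℚ from rfl, aeval_map_algebraMap]
    have hxyc : (y : ℂ) ^ 2 = (x : ℂ) ^ 3 + k := by exact_mod_cast hxy
    rw [h1, hF]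
    simp only [map_add, map_mul, map_pow, eq_intCast, map_intCast]
    linear_combination hz - aeval z P * hxyc
  obtain ⟨h1, h2⟩ := hc x y k hk hxy (min m (d - m)) ((min_le_right _ _).trans (Nat.sub_le _ _))
    (fun G hG hdvd => by rw [hm]; exact natDegree_irreducible_le hFq hFd hroot hG hdvd)
  refine ⟨h1, fun h3 h4 => h2 ?_⟩
  have : 6 * min m (d - m) = min (6 * m) (6 * (d - m)) := by omega
  omega

lemma isCoprime_C_mul_X {P : ℤ[X]} (hP0 : P.eval 0 ≠ 0) {e : ℤ} (he : e ≠ 0) :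
    IsCoprime (P.map (Int.castRingHom ℚ)) ((C e * X : ℤ[X]).map (Int.castRingHom ℚ)) := by
  set p := P.map (Int.castRingHom ℚ) with hp
  have h0 : p.coeff 0 ≠ 0 := by
    rw [hp, coeff_map, coeff_zero_eq_eval_zero, eq_intCast]
    exact_mod_cast hP0
  have he' : (e : ℚ) ≠ 0 := by exact_mod_cast he
  refine ⟨C (p.coeff 0)⁻¹, -(C (p.coeff 0)⁻¹ * divX p * C (e : ℚ)⁻¹), ?_⟩
  have h1 := divX_mul_X_add p
  have h2 : C (p.coeff 0)⁻¹ * C (p.coeff 0) = 1 := by rw [← C_mul, inv_mul_cancel₀ h0, C_1]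
  have h3 : C (e : ℚ)⁻¹ * C (e : ℚ) = 1 := by rw [← C_mul, inv_mul_cancel₀ he', C_1]
  rw [Polynomial.map_mul, Polynomial.map_C, Polynomial.map_X, eq_intCast]
  linear_combination (-C (p.coeff 0)⁻¹) * h1 + h2 - C (p.coeff 0)⁻¹ * divX p * X * h3

/-- The case of a polynomial `P` with a fibre polynomial of the form `P - j z`. -/
theorem haupt_general (P : ℤ[X]) (hP0 : P.eval 0 ≠ 0) {d : ℕ} (hd : P.natDegree = d) (hd1 : 1 ≤ d) :
    ∃ c : ℝ, ∀ x y k : ℤ, k ≠ 0 → y ^ 2 = x ^ 3 + k → ∀ z : ℂ,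
      1728 * (x : ℂ) ^ 3 * z = (x ^ 3 - y ^ 2) * aeval z P →
      d ≤ 6 * (minpoly ℚ z).natDegree → 6 * (minpoly ℚ z).natDegree ≤ 5 * d →
      max |(x : ℝ)| |(y : ℝ)| ≤ c * |(k : ℝ)| ^ 3 := by
  obtain ⟨c, hc⟩ := general' P (C 1728 * X) (isCoprime_C_mul_X hP0 (by norm_num)) (by simp) (by simp)
    (d := d) (by rw [hd, natDegree_C_mul_X _ (by norm_num), max_eq_left hd1])
  refine ⟨c, fun x y k hk hxy z hz h1 h2 => (hc x y k hk hxy z ?_ _ rfl).2 h1 h2⟩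
  rw [← hz, map_mul, aeval_X, aeval_C, map_ofNat]
  ring

end Pool.Agent.H67.Hall
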