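import Mathlib

/-!
# Runge's method for fibres of rational functions

Let `P`, `Q` be integral polynomials of degree at most `d` without common zero, `Q (0) = 0 ≠ Q' (0)`, and
let `a`, `b` be coprime non-zero integers. If `b P + a Q = G H` in `ℤ[X]` where `H` has degree `m` and no
zero near `0`, then `|a| ^ m ≤ C |b| ^ d`.
-/

namespace Pool.Agent.H67.Hall

open Polynomial

/-- The length of a polynomial: the sum of the absolute values of its coefficients. -/
noncomputable def len (P : ℤ[X]) : ℝ := ∑ i ∈ Finset.range (P.natDegree + 1), |(P.coeff i : ℝ)|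

lemma norm_eval_le {P : ℤ[X]} {d : ℕ} (hd : P.natDegree ≤ d) (z : ℂ) :
    ‖(P.map (Int.castRingHom ℂ)).eval z‖ ≤ len P * (max 1 ‖z‖) ^ d := by
  rw [eval_eq_sum_range' (n := P.natDegree + 1)
    (lt_of_le_of_lt natDegree_map_le (Nat.lt_succ_self _)), len, Finset.sum_mul]
  refine (norm_sum_le _ _).trans (Finset.sum_le_sum fun i hi => ?_)
  rw [norm_mul, norm_pow, coeff_map]
  have h1 : ‖(Int.castRingHom ℂ) (P.coeff i)‖ = |(P.coeff i : ℝ)| := by
    rw [eq_intCast, Complex.norm_intCast]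
  rw [h1]
  refine mul_le_mul_of_nonneg_left ?_ (abs_nonneg _)
  have hi' : i ≤ d := (Nat.lt_succ_iff.mp (Finset.mem_range.mp hi)).trans hd
  calc ‖z‖ ^ i ≤ (max 1 ‖z‖) ^ i := pow_le_pow_left₀ (norm_nonneg _) (le_max_right _ _) _
    _ ≤ (max 1 ‖z‖) ^ d := pow_le_pow_right₀ (le_max_left _ _) hi'

lemma len_nonneg (P : ℤ[X]) : 0 ≤ len P := Finset.sum_nonneg fun _ _ => abs_nonneg _

lemma coeff_le_len (P : ℤ[X]) (i : ℕ) : |(P.coeff i : ℝ)| ≤ len P := by
  by_cases hi : i ≤ P.natDegree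
  · exact Finset.single_le_sum (f := fun i => |(P.coeff i : ℝ)|) (fun _ _ => abs_nonneg _)
      (Finset.mem_range.mpr (Nat.lt_succ_of_le hi))
  · rw [coeff_eq_zero_of_natDegree_lt (not_le.mp hi)]
    simpa using len_nonneg P

/-- The resultant of a factor of `b P + a Q` with `P` is divisible by a power of `a`. -/
lemma dvd_resultant {P Q G H : ℤ[X]} {a b : ℤ} {d : ℕ} (hab : IsCoprime a b)
    (hG : G.natDegree + H.natDegree ≤ d) (hF : C b * P + C a * Q = G * H) :
    a ^ H.natDegree ∣ resultant H P H.natDegree d := by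
  set m := H.natDegree with hm
  have h1 : resultant H (C b * P) m d = b ^ m * resultant H P m d := resultant_C_mul_right _ _ _ _ _
  have h2 : C b * P = C (-a) * Q + H * G := by
    rw [C_neg]; linear_combination hF
  have h3 : resultant H (C (-a) * Q + H * G) m d = resultant H (C (-a) * Q) m d :=
    resultant_add_mul_right _ _ _ _ _ hG le_rfl
  rw [h2, h3, resultant_C_mul_right] at h1
  have h4 : a ^ m ∣ b ^ m * resultant H P m d := by
    rw [← h1, neg_pow]
    exact Dvd.intro_left ((-1) ^ m) (by ring) |>.mul_right _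
  exact (hab.pow (m := m) (n := m)).dvd_of_dvd_mul_left h4

lemma eval_zero_ne {P Q : ℤ[X]}
    (hcop : IsCoprime (P.map (Int.castRingHom ℚ)) (Q.map (Int.castRingHom ℚ)))
    (hQ0 : Q.eval 0 = 0) : P.eval 0 ≠ 0 := by
  obtain ⟨u, v, huv⟩ := hcop
  intro h0
  have h1 := congrArg (eval 0) huv
  rw [eval_add, eval_mul, eval_mul, eval_one, ← map_zero (Int.castRingHom ℚ), eval_map_apply,
    eval_map_apply, h0, hQ0] at h1
  simp at h1

lemma no_common_root {P Q : ℤ[X]}
    (hcop : IsCoprime (P.map (Int.castRingHom ℚ)) (Q.map (Int.castRingHom ℚ))) (z : ℂ)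
    (h1 : (P.map (Int.castRingHom ℂ)).eval z = 0) (h2 : (Q.map (Int.castRingHom ℂ)).eval z = 0) :
    False := by
  obtain ⟨u, v, huv⟩ := hcop
  have h3 := congrArg (fun p => (p.map (algebraMap ℚ ℂ)).eval z) huv
  simp only [Polynomial.map_add, Polynomial.map_mul, Polynomial.map_map, eval_add, eval_mul,
    Polynomial.map_one, eval_one] at h3
  have h4 : (algebraMap ℚ ℂ).comp (Int.castRingHom ℚ) = Int.castRingHom ℂ := RingHom.ext_int _ _
  rw [h4, h1, h2] at h3
  simp at h3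

lemma norm_prod_le (p : ℂ[X]) (L : ℝ) (d : ℕ) (hL : 0 ≤ L)
    (h : ∀ z, ‖p.eval z‖ ≤ L * (max 1 ‖z‖) ^ d) (s : Multiset ℂ) :
    ‖(s.map p.eval).prod‖ ≤ L ^ s.card * ((s.map fun z => max 1 ‖z‖).prod) ^ d := by
  induction s using Multiset.induction_on with
  | empty => simp
  | cons z s ih =>
    rw [Multiset.map_cons, Multiset.prod_cons, Multiset.map_cons, Multiset.prod_cons,
      Multiset.card_cons, norm_mul]
    calc ‖p.eval z‖ * ‖(s.map p.eval).prod‖
        ≤ (L * (max 1 ‖z‖) ^ d) * (L ^ s.card * ((s.map fun z => max 1 ‖z‖).prod) ^ d) :=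
          mul_le_mul (h z) ih (norm_nonneg _) (by positivity)
      _ = _ := by rw [mul_pow]; ring

lemma prod_max_le (D : ℝ) (hD : 0 ≤ D) (s : Multiset ℂ) (h : ∀ z ∈ s, max 1 ‖z‖ ≤ D * ‖z‖) :
    (s.map fun z => max 1 ‖z‖).prod ≤ D ^ s.card * ‖s.prod‖ ∧ 0 ≤ (s.map fun z => max 1 ‖z‖).prod := by
  induction s using Multiset.induction_on with
  | empty => simp
  | cons z s ih =>
    obtain ⟨h1, h2⟩ := ih fun w hw => h w (Multiset.mem_cons_of_mem hw)
    rw [Multiset.map_cons, Multiset.prod_cons, Multiset.prod_cons, Multiset.card_cons, norm_mul]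
    refine ⟨?_, by positivity⟩
    calc max 1 ‖z‖ * (s.map fun z => max 1 ‖z‖).prod
        ≤ (D * ‖z‖) * (D ^ s.card * ‖s.prod‖) :=
          mul_le_mul (h z (Multiset.mem_cons_self _ _)) h1 h2 (by positivity)
      _ = _ := by ring

lemma key {P Q G H : ℤ[X]} {a b : ℤ} {d : ℕ} {D : ℝ} (hD : 1 ≤ D) (hP : P.natDegree ≤ d)
    (hcop : IsCoprime (P.map (Int.castRingHom ℚ)) (Q.map (Int.castRingHom ℚ)))
    (hQ0 : Q.eval 0 = 0) (ha : a ≠ 0) (hb : b ≠ 0) (hab : IsCoprime a b)
    (hd : (C b * P + C a * Q).natDegree ≤ d) (hF : C b * P + C a * Q = G * H)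
    (hroots : ∀ z ∈ (H.map (Int.castRingHom ℂ)).roots, max 1 ‖z‖ ≤ D * ‖z‖) :
    |(a : ℝ)| ^ H.natDegree ≤
      (len P * D ^ d) ^ H.natDegree * (|((P.eval 0 : ℤ) : ℝ)| * |(b : ℝ)|) ^ d := by
  have hP0 := eval_zero_ne hcop hQ0
  have hF0 : (C b * P + C a * Q).eval 0 = b * P.eval 0 := by simp [hQ0]
  have hGH0 : G.eval 0 * H.eval 0 = b * P.eval 0 := by rw [← hF0, hF, eval_mul]
  have hne : b * P.eval 0 ≠ 0 := mul_ne_zero hb hP0
  have hG0 : G.eval 0 ≠ 0 := by
    intro h; rw [h, zero_mul] at hGH0; exact hne hGH0.symm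
  have hH0 : H.eval 0 ≠ 0 := by
    intro h; rw [h, mul_zero] at hGH0; exact hne hGH0.symm
  have hG : G ≠ 0 := by rintro rfl; simp at hG0
  have hH : H ≠ 0 := by rintro rfl; simp at hH0
  have hdeg : G.natDegree + H.natDegree ≤ d := by
    rw [← natDegree_mul hG hH, ← hF]; exact hd
  have hdvd := dvd_resultant hab hdeg hF
  set m := H.natDegree with hm
  set R := resultant H P m d with hR
  have hinj : Function.Injective (Int.castRingHom ℂ) := RingHom.injective_int _
  set Hc := H.map (Int.castRingHom ℂ) with hHc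
  set Pc := P.map (Int.castRingHom ℂ) with hPc
  have hmc : Hc.natDegree = m := natDegree_map_eq_of_injective hinj _
  have hRc : (R : ℂ) = Hc.leadingCoeff ^ d * (Hc.roots.map Pc.eval).prod := by
    have h1 := resultant_eq_prod_eval Hc Pc d (natDegree_map_le.trans hP) (IsAlgClosed.splits Hc)
    rw [hmc, hHc, hPc, resultant_map_map] at h1
    exact h1
  have hcard : Hc.roots.card = m := by
    rw [← hmc]; exact (IsAlgClosed.splits Hc).natDegree_eq_card_roots.symm
  have hHcne : Hc ≠ 0 := by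
    rw [hHc, Polynomial.map_ne_zero_iff hinj]; exact hH
  -- the resultant does not vanish
  have hRne : R ≠ 0 := by
    intro h0
    rw [h0, Int.cast_zero, eq_comm, mul_eq_zero] at hRc
    rcases hRc with h | h
    · exact hHcne (leadingCoeff_eq_zero.mp (eq_zero_of_pow_eq_zero h))
    · rw [Multiset.prod_eq_zero_iff, Multiset.mem_map] at h
      obtain ⟨z, hz, hz0⟩ := h
      have hz1 : Hc.eval z = 0 := (mem_roots hHcne).mp hz
      have h2 := congrArg (fun p => (p.map (Int.castRingHom ℂ)).eval z) hF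
      simp only [Polynomial.map_add, Polynomial.map_mul, Polynomial.map_C, eval_add, eval_mul,
        eval_C] at h2
      rw [← hHc, ← hPc, hz1, hz0, mul_zero, mul_zero, zero_add, mul_eq_zero] at h2
      rcases h2 with h2 | h2
      · rw [eq_intCast, Int.cast_eq_zero] at h2; exact ha h2
      · exact no_common_root hcop z hz0 h2
  have h1 : |(a : ℝ)| ^ m ≤ |(R : ℝ)| := by
    have h2 : |a ^ m| ≤ |R| := by
      apply Int.le_of_dvd (abs_pos.mpr hRne)
      rw [abs_dvd_abs]; exact hdvd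
    rw [abs_pow] at h2
    exact_mod_cast h2
  -- the Mahler measure
  set M : ℝ := ‖Hc.leadingCoeff‖ * (Hc.roots.map (fun z => max 1 ‖z‖)).prod with hM
  have h2 : |(R : ℝ)| ≤ len P ^ m * M ^ d := by
    have h3 : |(R : ℝ)| = ‖(R : ℂ)‖ := by rw [Complex.norm_intCast]
    rw [h3, hRc, norm_mul, norm_pow]
    have h4 := norm_prod_le Pc (len P) d (len_nonneg P) (norm_eval_le hP) Hc.roots
    rw [hcard] at h4
    calc ‖Hc.leadingCoeff‖ ^ d * ‖(Hc.roots.map Pc.eval).prod‖
        ≤ ‖Hc.leadingCoeff‖ ^ d * (len P ^ m * ((Hc.roots.map fun z => max 1 ‖z‖).prod) ^ d) := by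
          gcongr
      _ = len P ^ m * M ^ d := by rw [hM, mul_pow]; ring
  have h3 : M ≤ D ^ m * |((H.eval 0 : ℤ) : ℝ)| := by
    have h4 := (prod_max_le D (by linarith) Hc.roots hroots).1
    rw [hcard] at h4
    have h5 : |((H.eval 0 : ℤ) : ℝ)| = ‖Hc.leadingCoeff‖ * ‖Hc.roots.prod‖ := by
      have h6 : ((H.eval 0 : ℤ) : ℂ) = Hc.coeff 0 := by
        rw [hHc, coeff_map, coeff_zero_eq_eval_zero]; simp
      have h7 := (IsAlgClosed.splits Hc).coeff_zero_eq_leadingCoeff_mul_prod_roots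
      rw [← Complex.norm_intCast, h6, h7, norm_mul, norm_mul, norm_pow, norm_neg, norm_one, one_pow,
        one_mul]
    rw [h5, hM]
    calc ‖Hc.leadingCoeff‖ * (Hc.roots.map fun z => max 1 ‖z‖).prod
        ≤ ‖Hc.leadingCoeff‖ * (D ^ m * ‖Hc.roots.prod‖) := by gcongr
      _ = _ := by ring
  have h4 : |((H.eval 0 : ℤ) : ℝ)| ≤ |((P.eval 0 : ℤ) : ℝ)| * |(b : ℝ)| := by
    have h5 : |H.eval 0| ≤ |P.eval 0| * |b| := by
      have h6 : |G.eval 0| * |H.eval 0| = |P.eval 0| * |b| := by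
        rw [← abs_mul, hGH0, abs_mul, mul_comm]
      have h7 : 1 ≤ |G.eval 0| := Int.one_le_abs hG0
      nlinarith [abs_nonneg (H.eval 0)]
    exact_mod_cast h5
  have hM0 : 0 ≤ M := by
    rw [hM]
    refine mul_nonneg (norm_nonneg _) (Multiset.prod_nonneg ?_)
    intro x hx
    rw [Multiset.mem_map] at hx
    obtain ⟨z, -, rfl⟩ := hx
    positivity
  calc |(a : ℝ)| ^ m ≤ len P ^ m * M ^ d := h1.trans h2
    _ ≤ len P ^ m * (D ^ m * (|((P.eval 0 : ℤ) : ℝ)| * |(b : ℝ)|)) ^ d := by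
        have := len_nonneg P
        gcongr
        exact h3.trans (by gcongr)
    _ = (len P * D ^ d) ^ m * (|((P.eval 0 : ℤ) : ℝ)| * |(b : ℝ)|) ^ d := by
        rw [mul_pow, mul_pow (len P), ← pow_mul, ← pow_mul, mul_comm m d]; ring

end Pool.Agent.H67.Hall
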