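import Pool.Agent.H67.Hall.Group

/-!
# Irreducible sextic and transitive action
-/

namespace Pool.Agent.H67.Hall

open WeierstrassCurve WeierstrassCurve.Affine Polynomial

open scoped Classical

section
variable {x y : ℤ}

/-- The Hauptmodul is a root of the fibre polynomial. -/
lemma Coord.root {H : AddSubgroup ((curve x y)⁄QQ).Point} {α β : QQ} (h : Coord x y H α β) {k : ℤ}
    (hxy : y ^ 2 = x ^ 3 + k) :
    aeval (haupt x α β) ((C k * P5 + C (1728 * x ^ 3) * X).map (Int.castRingHom ℚ)) = 0 := by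
  obtain ⟨h1, h2, h3, h4⟩ := h.relations
  have hxy' : (y : QQ) ^ 2 = (x : QQ) ^ 3 + k := by exact_mod_cast congrArg (Int.cast : ℤ → QQ) hxy
  set t := haupt x α β with ht
  set δ := (α - β) ^ 2 with hδ
  set s := α + β with hs
  have e1 : (144 : QQ) ^ 3 * (x : QQ) ^ 3 = δ ^ 3 * (t ^ 2 + 10 * t + 5) ^ 3 := by
    have h5 := congrArg (fun z : QQ => z ^ 3) h1
    linear_combination h5
  have e2 : (144 : QQ) ^ 3 * (y : QQ) ^ 2 = δ ^ 3 * (t ^ 2 + 22 * t + 125) * (t ^ 2 + 4 * t - 1) ^ 2 := by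
    have h5 := congrArg (fun z : QQ => z ^ 2) h3
    linear_combination 36 * h5 + δ ^ 2 * (t ^ 2 + 4 * t - 1) ^ 2 * h2
  have e3 : (144 : QQ) ^ 3 * (k : QQ) = -1728 * δ ^ 3 * t := by
    linear_combination e2 - e1 - (144 : QQ) ^ 3 * hxy'
  have e4 : aeval t ((C k * P5 + C (1728 * x ^ 3) * X).map (Int.castRingHom ℚ)) =
      (k : QQ) * (t ^ 6 + 30 * t ^ 5 + 315 * t ^ 4 + 1300 * t ^ 3 + 1575 * t ^ 2 + 750 * t + 125) +
        1728 * (x : QQ) ^ 3 * t := by
    rw [Polynomial.map_add, Polynomial.map_mul, P5_map, Polynomial.map_C, Polynomial.map_mul,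
      Polynomial.map_C, Polynomial.map_X]
    simp only [map_add, map_mul, map_pow, aeval_X, map_ofNat, eq_intCast, map_intCast]
  rw [e4]
  have e5 : (144 : QQ) ^ 3 ≠ 0 := by norm_num
  apply mul_left_cancel₀ e5
  linear_combination (t ^ 6 + 30 * t ^ 5 + 315 * t ^ 4 + 1300 * t ^ 3 + 1575 * t ^ 2 + 750 * t + 125) * e3 +
    1728 * t * e1

lemma eq_of_mem {A : Type*} [AddCommGroup A] {H H' : AddSubgroup A} (hH : Nat.card H = 5)
    (hH' : Nat.card H' = 5) {P : A} (hP : P ∈ H) (hP' : P ∈ H') (hP0 : P ≠ 0) : H = H' := by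
  have key : ∀ K : AddSubgroup A, Nat.card K = 5 → P ∈ K → K = AddSubgroup.zmultiples P := by
    intro K hK hPK
    have hprime : Fact (Nat.Prime (Nat.card K)) := ⟨by rw [hK]; norm_num⟩
    apply le_antisymm
    · intro Q hQ
      have h1 := mem_zmultiples_of_prime_card (G := K) rfl (g := ⟨P, hPK⟩) (g' := ⟨Q, hQ⟩)
        (by intro h; exact hP0 (congrArg Subtype.val h))
      rw [AddSubgroup.mem_zmultiples_iff] at h1 ⊢
      obtain ⟨n, hn⟩ := h1
      exact ⟨n, by simpa using congrArg Subtype.val hn⟩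
    · rw [AddSubgroup.zmultiples_le]
      exact hPK
  rw [key H hH hP, key H' hH' hP']

/-- A subgroup of order five is determined by the value of the Hauptmodul. -/
lemma Coord.unique {H H' : AddSubgroup ((curve x y)⁄QQ).Point} {α β α' β' : QQ}
    (hH : Nat.card H = 5) (hH' : Nat.card H' = 5) (h : Coord x y H α β) (h' : Coord x y H' α' β')
    (hx : x ≠ 0) (hy : y ≠ 0) (he : haupt x α β = haupt x α' β') : H = H' := by
  obtain ⟨h1, h2, h3, h4⟩ := h.relations
  obtain ⟨h1', h2', h3', h4'⟩ := h'.relations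
  rw [← he] at h1' h2' h3' h4'
  have hxc : (x : QQ) ≠ 0 := by exact_mod_cast hx
  have hyc : (y : QQ) ≠ 0 := by exact_mod_cast hy
  set t := haupt x α β with ht
  set δ := (α - β) ^ 2 with hδ
  set δ' := (α' - β') ^ 2 with hδ'
  have ht1 : t ^ 2 + 10 * t + 5 ≠ 0 := by
    intro h0; rw [h0, mul_zero] at h1
    exact hxc (by linear_combination h1 / 144)
  have hδδ : δ = δ' := mul_right_cancel₀ ht1 (h1.symm.trans h1')
  rw [← hδδ] at h2' h3' h4'
  have ht3 : δ * (t ^ 2 + 4 * t - 1) ≠ 0 := by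
    intro h0
    have : 72 * (y : QQ) * 4 = 0 := by rw [h3, mul_assoc, h0, mul_zero]
    exact hyc (by linear_combination this / 288)
  have hss : α + β = α' + β' := by
    apply mul_right_cancel₀ ht3
    linear_combination h3' - h3
  have hpp : α * β = α' * β' := by
    linear_combination (h4 - h4') / 144
  have h5 : (α' - α) * (α' - β) = 0 := by
    linear_combination (-α') * hss + hpp
  obtain ⟨-, ⟨γ, hγ, hm⟩, ⟨ε, hε, hm2⟩, -, -⟩ := h
  obtain ⟨-, ⟨γ', hγ', hm'⟩, -, -, -⟩ := h'
  apply eq_of_mem hH hH' _ hm' (Affine.Point.some_ne_zero hγ')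
  rcases mul_eq_zero.mp h5 with h6 | h6
  · have h7 : α' = α := sub_eq_zero.mp h6
    rcases (Affine.Point.X_eq_iff (h₁ := hγ') (h₂ := hγ)).mp h7 with h8 | h8
    · rw [h8]; exact hm
    · rw [h8]; exact H.neg_mem hm
  · have h7 : α' = β := sub_eq_zero.mp h6
    rcases (Affine.Point.X_eq_iff (h₁ := hγ') (h₂ := hε)).mp h7 with h8 | h8
    · rw [h8]; exact hm2
    · rw [h8]; exact H.neg_mem hm2

lemma card_map {H : AddSubgroup ((curve x y)⁄QQ).Point} (hH : Nat.card H = 5) (σ : QQ ≃ₐ[ℚ] QQ) :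
    Nat.card (H.map (Affine.Point.map (W' := curve x y) (σ : QQ →ₐ[ℚ] QQ))) = 5 := by
  rw [AddSubgroup.card_map_of_injective]
  · exact hH
  · exact Affine.Point.map_injective _

/-- If the fibre polynomial is irreducible, then the Galois group acts transitively. -/
theorem transitive_of_irreducible {k : ℤ} (hxy : y ^ 2 = x ^ 3 + k) (hx : x ≠ 0) (hy : y ≠ 0)
    (hirr : Irreducible ((C k * P5 + C (1728 * x ^ 3) * X).map (Int.castRingHom ℚ))) :
    GaloisTransitive (curve x y) 5 := by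
  intro H H' hH hH'
  obtain ⟨α, β, h⟩ := exists_coord hH
  obtain ⟨α', β', h'⟩ := exists_coord hH'
  have hG := isGalois_QQ
  have hmin : ∀ t : QQ, aeval t ((C k * P5 + C (1728 * x ^ 3) * X).map (Int.castRingHom ℚ)) = 0 →
      minpoly ℚ t = ((C k * P5 + C (1728 * x ^ 3) * X).map (Int.castRingHom ℚ)) *
        C ((C k * P5 + C (1728 * x ^ 3) * X).map (Int.castRingHom ℚ)).leadingCoeff⁻¹ := by
    intro t ht
    exact (minpoly.eq_of_irreducible hirr ht).symm
  have hconj : IsConjRoot ℚ (haupt x α β) (haupt x α' β') := by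
    rw [isConjRoot_def, hmin _ (h.root hxy), hmin _ (h'.root hxy)]
  obtain ⟨σ, hσ⟩ := (isConjRoot_iff_exists_algEquiv).mp hconj
  refine ⟨σ.symm, ?_⟩
  apply Coord.unique (card_map hH _) hH' (h.map _) h' hx hy
  rw [haupt_map, ← hσ]
  simp

/-- Hall's inequality if the action on the subgroups of order five is not transitive. -/
theorem five {k : ℤ} (hk : k ≠ 0) (hxy : y ^ 2 = x ^ 3 + k) (hT : ¬ GaloisTransitive (curve x y) 5) :
    |x| ≤ 400000 * k ^ 2 ∧ max |x| |y| ≤ 240000000 * |k| ^ 3 := by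
  have hk1 : 1 ≤ |k| := Int.one_le_abs hk
  have hk2 : |k| ≤ k ^ 2 := by rw [← sq_abs k]; nlinarith
  have hk3 : |k| ≤ |k| ^ 3 := le_self_pow₀ hk1 (by norm_num)
  rcases eq_or_ne x 0 with rfl | hx
  · have h1 : |y| ≤ |k| := by
      have h2 : y ^ 2 = k := by linear_combination hxy
      rw [← h2, abs_pow]
      exact Int.le_self_sq _ |>.trans (by simp)
    refine ⟨by rw [abs_zero]; positivity, max_le (by rw [abs_zero]; positivity) ?_⟩
    nlinarith
  rcases eq_or_ne y 0 with rfl | hy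
  · have h1 : |x| ≤ |k| := by
      have h2 : k = -x ^ 3 := by linear_combination (-1 : ℤ) * hxy
      rw [h2, abs_neg, abs_pow]
      exact le_self_pow₀ (Int.one_le_abs hx) (by norm_num)
    refine ⟨by nlinarith, max_le (by nlinarith) (by rw [abs_zero]; positivity)⟩
  · refine five_bound hk hxy hx fun G hG hdvd => ?_
    by_contra hcon
    push Not at hcon
    set F := (C k * P5 + C (1728 * x ^ 3) * X).map (Int.castRingHom ℚ) with hF
    have hFd : F.natDegree ≤ 6 := by
      refine natDegree_map_le.trans ((natDegree_add_le _ _).trans (max_le ?_ ?_))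
      · exact (natDegree_C_mul_le _ _).trans (by rw [P5_natDegree])
      · exact (natDegree_C_mul_le _ _).trans (by rw [natDegree_X]; norm_num)
    have hF0 : F ≠ 0 := by
      intro h0
      have h1 : F.coeff 0 = k * 125 := by
        rw [hF, coeff_map, coeff_zero_eq_eval_zero]
        simp [P5_zero]
      rw [h0, coeff_zero] at h1
      have : (k : ℚ) ≠ 0 := by exact_mod_cast hk
      exact (mul_ne_zero this (by norm_num)) h1.symm
    apply hT
    apply transitive_of_irreducible hxy hx hy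
    rw [← hF]
    obtain ⟨H, hH⟩ := hdvd
    have hG0 : G ≠ 0 := hG.ne_zero
    have hH0 : H ≠ 0 := by rintro rfl; rw [mul_zero] at hH; exact hF0 hH
    have h2 : F.natDegree = G.natDegree + H.natDegree := by
      conv_lhs => rw [hH]
      exact natDegree_mul hG0 hH0
    have h3 : H.natDegree = 0 := by omega
    have h4 : IsUnit H := by
      rw [eq_C_of_natDegree_eq_zero h3]
      apply (isUnit_iff_ne_zero.mpr _).map C
      intro h5
      apply hH0
      rw [eq_C_of_natDegree_eq_zero h3, h5, C_0]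
    rw [hH]
    exact (irreducible_mul_isUnit h4).mpr hG

end

end Pool.Agent.H67.Hall
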